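import Pool.Agent.Helper75.Ch.Defs

set_option autoImplicit false
set_option linter.unusedSectionVars false

namespace Pool.Agent.Helper92.Ch

open Finset Classical Pool.Agent.Helper75.Ch

/-! ### The cost inequality -/

section cost

variable {V : Type*} [Fintype V] (G : SimpleGraph V)

theorem mem_nb' {W : Finset V} {y : V} : y ∈ nb G W ↔ y ∉ W ∧ ∃ x ∈ W, G.Adj x y := by
  simp [nb]

theorem mem_nbv' {x y : V} : y ∈ nbv G x ↔ G.Adj x y := by
  simp [nbv]

/-- submodularity of the total deficiency along the cut of `W`. -/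
theorem cost (W Z : Finset V)
    (hZ : ∀ z ∈ Z, z ∈ nb G W → 3 ≤ (nbv G z ∩ W).card ∧ 3 ≤ (nbv G z \ W).card) :
    dfc G (W ∪ nb G W) + dfc G (univ \ W) ≤ dfc G univ + 3 * (nb G W \ Z).card := by
  have hdisj : Disjoint W (nb G W) := by
    rw [Finset.disjoint_left]
    intro x hx hx'
    exact ((mem_nb' G).mp hx').1 hx
  have hu : (univ : Finset V) = W ∪ (nb G W ∪ (univ \ (W ∪ nb G W))) := by
    ext x
    simp only [mem_univ, mem_union, mem_sdiff, true_iff]
    tauto
  have hx2 : univ \ W = nb G W ∪ (univ \ (W ∪ nb G W)) := by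
    ext x
    simp only [mem_univ, mem_union, mem_sdiff, true_and]
    constructor
    · intro h
      by_cases h' : x ∈ nb G W
      · exact Or.inl h'
      · exact Or.inr (by tauto)
    · rintro (h | h)
      · exact ((mem_nb' G).mp h).1
      · tauto
  have hd2 : Disjoint (nb G W) (univ \ (W ∪ nb G W)) := by
    rw [Finset.disjoint_left]
    intro x hx hx'
    simp only [mem_sdiff, mem_union, mem_univ, true_and] at hx'
    tauto
  have hd1 : Disjoint W (nb G W ∪ (univ \ (W ∪ nb G W))) := by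
    rw [← hx2]
    exact disjoint_sdiff
  -- rewrite the three sums
  have e1 : dfc G (W ∪ nb G W) = ∑ v ∈ W, (3 - (nbv G v ∩ (W ∪ nb G W)).card)
      + ∑ v ∈ nb G W, (3 - (nbv G v ∩ (W ∪ nb G W)).card) := by
    unfold dfc
    rw [sum_union hdisj]
  have e2 : dfc G (univ \ W) = ∑ v ∈ nb G W, (3 - (nbv G v ∩ (univ \ W)).card)
      + ∑ v ∈ univ \ (W ∪ nb G W), (3 - (nbv G v ∩ (univ \ W)).card) := by
    unfold dfc
    conv_lhs => rw [hx2, sum_union hd2, ← hx2]
  have e3 : dfc G univ = ∑ v ∈ W, (3 - (nbv G v).card)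
      + (∑ v ∈ nb G W, (3 - (nbv G v).card)
      + ∑ v ∈ univ \ (W ∪ nb G W), (3 - (nbv G v).card)) := by
    unfold dfc
    conv_lhs => rw [hu, sum_union hd1, sum_union hd2, ← hu]
    simp
  have f1 : ∑ v ∈ W, (3 - (nbv G v ∩ (W ∪ nb G W)).card) = ∑ v ∈ W, (3 - (nbv G v).card) := by
    apply sum_congr rfl
    intro v hv
    have : nbv G v ∩ (W ∪ nb G W) = nbv G v := by
      rw [inter_eq_left]
      intro y hy
      rw [mem_nbv'] at hy
      rw [mem_union, mem_nb']
      by_cases h : y ∈ W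
      · exact Or.inl h
      · exact Or.inr ⟨h, v, hv, hy⟩
    rw [this]
  have f2 : ∑ v ∈ univ \ (W ∪ nb G W), (3 - (nbv G v ∩ (univ \ W)).card)
      = ∑ v ∈ univ \ (W ∪ nb G W), (3 - (nbv G v).card) := by
    apply sum_congr rfl
    intro v hv
    have : nbv G v ∩ (univ \ W) = nbv G v := by
      rw [inter_eq_left]
      intro y hy
      rw [mem_nbv'] at hy
      rw [mem_sdiff]
      refine ⟨mem_univ _, fun h => ?_⟩
      simp only [mem_sdiff, mem_union, mem_univ, true_and, not_or, mem_nb'] at hv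
      exact hv.2 ⟨hv.1, y, h, hy.symm⟩
    rw [this]
  have f3 : ∑ v ∈ nb G W, (3 - (nbv G v ∩ (W ∪ nb G W)).card)
      + ∑ v ∈ nb G W, (3 - (nbv G v ∩ (univ \ W)).card)
      ≤ ∑ v ∈ nb G W, (3 - (nbv G v).card) + 3 * (nb G W \ Z).card := by
    have hc : 3 * (nb G W \ Z).card = ∑ v ∈ nb G W, (if v ∈ Z then 0 else 3) := by
      have : nb G W \ Z = (nb G W).filter (fun v => v ∉ Z) := by
        ext x; simp
      rw [this, card_filter, mul_sum]
      apply sum_congr rfl
      intro v _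
      by_cases h : v ∈ Z <;> simp [h]
    rw [hc, ← sum_add_distrib, ← sum_add_distrib]
    apply sum_le_sum
    intro v hv
    by_cases h : v ∈ Z
    · obtain ⟨h1, h2⟩ := hZ v h hv
      have g1 : 3 ≤ (nbv G v ∩ (W ∪ nb G W)).card :=
        le_trans h1 (card_le_card (inter_subset_inter_left subset_union_left))
      have g2 : 3 ≤ (nbv G v ∩ (univ \ W)).card := by
        refine le_trans h2 (card_le_card ?_)
        intro x hx
        simp only [mem_sdiff, mem_inter, mem_univ, true_and] at hx ⊢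
        exact hx
      simp only [h, if_true]
      omega
    · simp only [h, if_false]
      have : (nbv G v).card ≤ (nbv G v ∩ (W ∪ nb G W)).card + (nbv G v ∩ (univ \ W)).card := by
        refine le_trans (card_le_card ?_) (card_union_le _ _)
        intro x hx
        simp only [mem_union, mem_inter, mem_sdiff, mem_univ, true_and]
        tauto
      omega
  rw [e1, e2, e3, f1, f2]
  omega

/-- the potential inequality (P'). -/
theorem potential (hG : PM G) (W Z : Finset V) (hW : W.Nonempty)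
    (hX : W ∪ nb G W ≠ univ)
    (hZ : ∀ z ∈ Z, z ∈ nb G W → 3 ≤ (nbv G z ∩ W).card ∧ 3 ≤ (nbv G z \ W).card) :
    tau (W ∪ nb G W).card * (W ∪ nb G W).card + tau (univ \ W).card * (univ \ W).card
      < tau (Fintype.card V) * Fintype.card V + 3 * (nb G W \ Z).card := by
  have h1 := hG.2 (W ∪ nb G W) (hW.mono subset_union_left) hX
  have hne : (univ \ W).Nonempty := by
    by_contra hcon
    rw [not_nonempty_iff_eq_empty, sdiff_eq_empty_iff_subset] at hcon
    apply hX
    apply subset_antisymm (subset_univ _)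
    exact hcon.trans subset_union_left
  have hne2 : (univ \ W) ≠ univ := by
    intro h
    obtain ⟨w, hw⟩ := hW
    have := mem_univ w
    rw [← h, mem_sdiff] at this
    exact this.2 hw
  have h2 := hG.2 (univ \ W) hne hne2
  have h3 := hG.1
  have h4 := cost G W Z hZ
  have h5 : (dfc G (W ∪ nb G W) : ℝ) + dfc G (univ \ W) ≤ dfc G univ + 3 * (nb G W \ Z).card := by
    exact_mod_cast h4
  linarith

theorem card_facts (W : Finset V) :
    (W ∪ nb G W).card = W.card + (nb G W).card ∧
    W.card + (univ \ W).card = Fintype.card V ∧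
    (W ∪ nb G W).card ≤ Fintype.card V := by
  refine ⟨?_, ?_, card_le_univ _⟩
  · apply card_union_of_disjoint
    rw [Finset.disjoint_left]
    intro x hx hx'
    exact ((mem_nb' G).mp hx').1 hx
  · rw [card_sdiff_of_subset (subset_univ _), card_univ]
    have := card_le_univ W
    omega

end cost

/-! ### Numeric lemmas on `tau` -/

theorem log_nonneg_nat {n : ℕ} (_h : 1 ≤ n) : 0 ≤ Real.log n := Real.log_natCast_nonneg n

theorem tau_anti {m n : ℕ} (hm : 1 ≤ m) (h : m ≤ n) : tau n ≤ tau m := by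
  unfold tau
  have h1 : (0:ℝ) < m := by exact_mod_cast hm
  have h2 : Real.log m ≤ Real.log n := Real.log_le_log h1 (by exact_mod_cast h)
  have h3 := log_nonneg_nat hm
  apply one_div_le_one_div_of_le <;> linarith

theorem tau_pos (n : ℕ) : 0 < tau n := by
  unfold tau
  have : 0 ≤ Real.log n := Real.log_natCast_nonneg n
  positivity

theorem tau_le_one (n : ℕ) : tau n ≤ 1 := by
  unfold tau
  have : 0 ≤ Real.log n := Real.log_natCast_nonneg n
  rw [div_le_one (by positivity)]
  linarith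

theorem tau_sub {m n : ℕ} (_hm : 1 ≤ m) (_h : m ≤ n) :
    tau m - tau n = (Real.log n - Real.log m) / ((1 + Real.log m) * (1 + Real.log n)) := by
  unfold tau
  have h1 : 0 ≤ Real.log m := Real.log_natCast_nonneg m
  have h2 : 0 ≤ Real.log n := Real.log_natCast_nonneg n
  have h3 : (1 + Real.log m) ≠ 0 := by positivity
  have h4 : (1 + Real.log n) ≠ 0 := by positivity
  field_simp
  ring

theorem half_lt_log : (1/2 : ℝ) ≤ Real.log (5/3) := by
  rw [Real.le_log_iff_exp_le (by norm_num)]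
  have h1 : Real.exp 1 < 2.7182818286 := Real.exp_one_lt_d9
  have h2 : Real.exp (1/2) * Real.exp (1/2) = Real.exp 1 := by
    rw [← Real.exp_add]; norm_num
  have h3 := Real.exp_pos (1/2)
  by_contra hcon
  push Not at hcon
  nlinarith

/-- the gain at scale `m ≤ 0.6 n`. -/
theorem gain {m n : ℕ} (hm : 1 ≤ m) (h : 5 * m ≤ 3 * n) :
    1 / (2 * (1 + Real.log n) ^ 2) ≤ tau m - tau n := by
  have hmn : m ≤ n := by omega
  rw [tau_sub hm hmn]
  have h1 : 0 ≤ Real.log m := Real.log_natCast_nonneg m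
  have h2 : 0 ≤ Real.log n := Real.log_natCast_nonneg n
  have hm0 : (0:ℝ) < m := by exact_mod_cast hm
  have hn0 : (0:ℝ) < n := by exact_mod_cast (by omega : 0 < n)
  have h3 : Real.log m ≤ Real.log n := Real.log_le_log hm0 (by exact_mod_cast hmn)
  have h4 : (1/2 : ℝ) ≤ Real.log n - Real.log m := by
    rw [← Real.log_div hn0.ne' hm0.ne']
    refine le_trans half_lt_log (Real.log_le_log (by norm_num) ?_)
    rw [div_le_div_iff₀ (by norm_num) hm0]
    have : (5:ℝ) * m ≤ 3 * n := by exact_mod_cast h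
    linarith
  rw [div_le_div_iff₀ (by positivity) (by positivity)]
  have h5 : (1 + Real.log m) * (1 + Real.log n) ≤ (1 + Real.log n) ^ 2 := by
    rw [sq]
    apply mul_le_mul_of_nonneg_right <;> linarith
  nlinarith [sq_nonneg (1 + Real.log n)]

theorem one_add_log_le {x : ℝ} (hx : 1 ≤ x) (j : ℕ) (hj : 1 ≤ j) :
    1 + Real.log x ≤ j * x ^ (1 / (j:ℝ)) := by
  have hx0 : 0 < x := by linarith
  have hj0 : (0:ℝ) < j := by exact_mod_cast hj
  have h1 : Real.log (x ^ (1 / (j:ℝ))) = (1 / (j:ℝ)) * Real.log x := Real.log_rpow hx0 _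
  have h2 := Real.log_le_sub_one_of_pos (Real.rpow_pos_of_pos hx0 (1 / (j:ℝ)))
  rw [h1] at h2
  have h3 : Real.log x ≤ j * (x ^ (1 / (j:ℝ)) - 1) := by
    have := mul_le_mul_of_nonneg_left h2 hj0.le
    rwa [← mul_assoc, mul_one_div_cancel hj0.ne', one_mul] at this
  have h4 : (1:ℝ) ≤ j := by exact_mod_cast hj
  nlinarith

/-- pieces with small gain are bounded. -/
theorem numeric (k : ℕ) : ∃ C n0 : ℕ, ∀ m n : ℕ, n0 ≤ n → 1 ≤ m → 5 * m ≤ 3 * n →
    (tau m - tau n) * m ≤ 3 * k → m ≤ C := by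
  refine ⟨576 * k ^ 2 + 1, (400 * (k + 1)) ^ 4, ?_⟩
  intro m n hn hm hmn hk
  have hmn' : m ≤ n := by omega
  have hm0 : (0:ℝ) < m := by exact_mod_cast hm
  have hm1 : (1:ℝ) ≤ m := by exact_mod_cast hm
  have hnbig : (400 * ((k:ℝ) + 1)) ^ 4 ≤ n := by exact_mod_cast hn
  have hk0 : (0:ℝ) ≤ k := Nat.cast_nonneg k
  have hn1 : (1:ℝ) ≤ n := by
    refine le_trans ?_ hnbig
    have : (1:ℝ) ≤ 400 * ((k:ℝ) + 1) := by linarith
    exact one_le_pow₀ this
  have hn0 : (0:ℝ) < n := by linarith
  have h1 : 0 ≤ Real.log m := Real.log_natCast_nonneg m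
  have h2 : 0 ≤ Real.log n := Real.log_natCast_nonneg n
  -- the fourth root of `n`
  set t : ℝ := (n:ℝ) ^ (1 / (4:ℝ)) with ht
  have ht0 : 0 < t := Real.rpow_pos_of_pos hn0 _
  have ht4 : t ^ 4 = n := by
    rw [ht, ← Real.rpow_natCast, ← Real.rpow_mul hn0.le]
    norm_num
  have htbig : 400 * ((k:ℝ) + 1) ≤ t := by
    by_contra hcon
    push Not at hcon
    have : t ^ 4 < (400 * ((k:ℝ) + 1)) ^ 4 := pow_lt_pow_left₀ hcon ht0.le (by norm_num)
    linarith
  -- log bound: (1 + log n)^2 ≤ 64 t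
  have hlog : (1 + Real.log n) ^ 2 ≤ 64 * t := by
    have h := one_add_log_le hn1 8 (by norm_num)
    have hu0 : 0 < (n:ℝ) ^ (1 / ((8:ℕ):ℝ)) := Real.rpow_pos_of_pos hn0 _
    have hu2 : ((n:ℝ) ^ (1 / ((8:ℕ):ℝ))) ^ 2 = t := by
      rw [ht, ← Real.rpow_natCast, ← Real.rpow_mul hn0.le]
      norm_num
    calc (1 + Real.log n) ^ 2 ≤ (((8:ℕ):ℝ) * (n:ℝ) ^ (1 / ((8:ℕ):ℝ))) ^ 2 := by
          apply pow_le_pow_left₀ (by positivity) h
      _ = 64 * t := by rw [mul_pow, hu2]; norm_num
  -- first: m ≤ t^2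
  have hmt : (m:ℝ) < t ^ 2 := by
    by_contra hcon
    push Not at hcon
    have g := gain hm hmn
    have g2 : 1 / (128 * t) ≤ tau m - tau n := by
      refine le_trans ?_ g
      apply one_div_le_one_div_of_le (by positivity)
      linarith
    have g3 : 1 / (128 * t) * t ^ 2 ≤ 3 * k := by
      refine le_trans ?_ hk
      apply mul_le_mul g2 hcon (by positivity)
      have : 0 ≤ 1 / (128 * t) := by positivity
      linarith
    have g4 : 1 / (128 * t) * t ^ 2 = t / 128 := by field_simp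
    rw [g4] at g3
    linarith
  -- second: gain is at least 1 / (4 (1 + log m))
  have hlogm : Real.log m ≤ Real.log n / 2 := by
    have : Real.log m ≤ Real.log (t ^ 2) := Real.log_le_log hm0 hmt.le
    rw [Real.log_pow] at this
    have e : Real.log n = 4 * Real.log t := by
      rw [← ht4, Real.log_pow]; norm_num
    rw [e]
    push_cast at this
    linarith
  have hlogn : 1 ≤ Real.log n := by
    have e : Real.log n = 4 * Real.log t := by
      rw [← ht4, Real.log_pow]; norm_num
    have h3 : Real.log (5/3) ≤ Real.log t := Real.log_le_log (by norm_num) (by linarith)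
    have := half_lt_log
    linarith
  have hgain : 1 / (4 * (1 + Real.log m)) ≤ tau m - tau n := by
    rw [tau_sub hm hmn', div_le_div_iff₀ (by positivity) (by positivity)]
    nlinarith
  have h5 : 1 / (4 * (1 + Real.log m)) * m ≤ 3 * k :=
    le_trans (mul_le_mul_of_nonneg_right hgain hm0.le) hk
  have h6 : (m:ℝ) ≤ 12 * k * (1 + Real.log m) := by
    rw [one_div, ← div_eq_inv_mul, div_le_iff₀ (by positivity)] at h5
    linarith
  have h7 := one_add_log_le hm1 2 (by norm_num)
  set s : ℝ := (m:ℝ) ^ (1 / ((2:ℕ):ℝ)) with hs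
  have hs0 : 0 < s := Real.rpow_pos_of_pos hm0 _
  have hs2 : s ^ 2 = m := by
    rw [hs, ← Real.rpow_natCast, ← Real.rpow_mul hm0.le]
    norm_num
  have h8 : s ^ 2 ≤ 24 * k * s := by
    rw [hs2]
    refine le_trans h6 ?_
    have : 12 * (k:ℝ) * (1 + Real.log m) ≤ 12 * k * (((2:ℕ):ℝ) * s) :=
      mul_le_mul_of_nonneg_left h7 (by positivity)
    push_cast at this
    linarith
  have h9 : s ≤ 24 * k := by nlinarith
  have h10 : (m:ℝ) ≤ 576 * k ^ 2 := by
    rw [← hs2]
    nlinarith
  have : (m:ℝ) ≤ ((576 * k ^ 2 + 1 : ℕ) : ℝ) := by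
    push_cast
    linarith
  exact_mod_cast this

/-! ### The four consequences -/

/-- (T4a) vertex expansion of potential-minimal graphs. -/
theorem pm_expand : ∃ n0 : ℕ, ∀ {V : Type} [Fintype V] (G : SimpleGraph V), PM G →
    n0 ≤ Fintype.card V →
    (∀ W : Finset V, W.Nonempty → 4 * W.card ≤ 3 * Fintype.card V →
      (W.card : ℝ) ≤ 18 * (1 + Real.log (Fintype.card V)) ^ 2 * (nb G W).card) := by
  refine ⟨1, ?_⟩
  intro V _ G hG hn W hW hWc
  obtain ⟨c1, c2, c3⟩ := card_facts G W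
  have hl : 0 ≤ Real.log (Fintype.card V) := Real.log_natCast_nonneg _
  have hW1 : 1 ≤ W.card := hW.card_pos
  have hsq : (1:ℝ) ≤ (1 + Real.log (Fintype.card V)) ^ 2 := one_le_pow₀ (by linarith)
  have triv : (W.card ≤ 18 * (nb G W).card) →
      (W.card : ℝ) ≤ 18 * (1 + Real.log (Fintype.card V)) ^ 2 * (nb G W).card := by
    intro h
    have h' : (W.card : ℝ) ≤ 18 * (nb G W).card := by exact_mod_cast h
    have h0 : (0:ℝ) ≤ (nb G W).card := Nat.cast_nonneg _
    nlinarith
  by_cases hX : W ∪ nb G W = univ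
  · apply triv
    have : (W ∪ nb G W).card = Fintype.card V := by rw [hX, card_univ]
    omega
  have hP := potential G hG W ∅ hW hX (by simp)
  rw [sdiff_empty] at hP
  have hn2 : 1 ≤ (univ \ W).card := by
    by_contra hcon
    have : W.card = Fintype.card V := by omega
    omega
  have hn1 : 1 ≤ (W ∪ nb G W).card := by omega
  have a1 := tau_anti hn1 c3
  have a2 := tau_anti hn2 (by omega : (univ \ W).card ≤ Fintype.card V)
  have t0 := tau_pos (Fintype.card V)
  set n := Fintype.card V with hndef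
  set n1 := (W ∪ nb G W).card with hn1def
  set n2 := (univ \ W).card with hn2def
  have e1 : (n1:ℝ) = W.card + (nb G W).card := by exact_mod_cast c1
  have e2 : (W.card:ℝ) + n2 = n := by exact_mod_cast c2
  have b1 : (0:ℝ) ≤ n1 := Nat.cast_nonneg _
  have b2 : (0:ℝ) ≤ n2 := Nat.cast_nonneg _
  have b3 : (0:ℝ) ≤ (nb G W).card := Nat.cast_nonneg _
  have hP' : (tau n1 - tau n) * n1 + (tau n2 - tau n) * n2 ≤ 3 * (nb G W).card := by
    have : tau n * n ≤ tau n * (n1 + n2) := by
      apply mul_le_mul_of_nonneg_left _ t0.le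
      linarith
    nlinarith
  have p1 : 0 ≤ (tau n1 - tau n) * n1 := mul_nonneg (by linarith) b1
  have p2 : 0 ≤ (tau n2 - tau n) * n2 := mul_nonneg (by linarith) b2
  have hS : 0 < (1 + Real.log (n:ℝ)) ^ 2 := by positivity
  by_cases hW2 : 2 * W.card ≤ n
  · by_cases h6 : 5 * n1 ≤ 3 * n
    · have g := gain hn1 h6
      have g2 : 1 / (2 * (1 + Real.log (n:ℝ)) ^ 2) * n1 ≤ 3 * (nb G W).card := by
        have := mul_le_mul_of_nonneg_right g b1
        linarith
      rw [one_div, ← div_eq_inv_mul, div_le_iff₀ (by positivity)] at g2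
      nlinarith
    · apply triv
      omega
  · have h6 : 5 * n2 ≤ 3 * n := by omega
    have g := gain hn2 h6
    have g2 : 1 / (2 * (1 + Real.log (n:ℝ)) ^ 2) * n2 ≤ 3 * (nb G W).card := by
      have := mul_le_mul_of_nonneg_right g b2
      linarith
    rw [one_div, ← div_eq_inv_mul, div_le_iff₀ (by positivity)] at g2
    have h7 : (W.card:ℝ) ≤ 3 * n2 := by
      have : W.card ≤ 3 * n2 := by omega
      exact_mod_cast this
    nlinarith

/-- the general pocket lemma. -/
theorem pocket_aux {V : Type*} [Fintype V] (G : SimpleGraph V) (hG : PM G) (W Z : Finset V)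
    (hW : W.Nonempty) (hX : W ∪ nb G W ≠ univ)
    (hZ : ∀ z ∈ Z, z ∈ nb G W → 3 ≤ (nbv G z ∩ W).card ∧ 3 ≤ (nbv G z \ W).card) (k : ℕ)
    (hk : (nb G W \ Z).card ≤ k) :
    (tau (W ∪ nb G W).card - tau (Fintype.card V)) * (W ∪ nb G W).card ≤ 3 * k ∧
    (tau (univ \ W).card - tau (Fintype.card V)) * (univ \ W).card ≤ 3 * k ∧
    1 ≤ (W ∪ nb G W).card ∧ 1 ≤ (univ \ W).card := by
  obtain ⟨c1, c2, c3⟩ := card_facts G W
  have hW1 : 1 ≤ W.card := hW.card_pos
  have hP := potential G hG W Z hW hX hZ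
  have hn2 : 1 ≤ (univ \ W).card := by
    by_contra hcon
    have h0 : (univ \ W).card = 0 := by omega
    rw [card_eq_zero, sdiff_eq_empty_iff_subset] at h0
    exact hX (subset_antisymm (subset_univ _) (h0.trans subset_union_left))
  have hn1 : 1 ≤ (W ∪ nb G W).card := by omega
  have a1 := tau_anti hn1 c3
  have a2 := tau_anti hn2 (by omega : (univ \ W).card ≤ Fintype.card V)
  have t0 := tau_pos (Fintype.card V)
  set n := Fintype.card V with hndef
  set n1 := (W ∪ nb G W).card with hn1def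
  set n2 := (univ \ W).card with hn2def
  have e1 : (n1:ℝ) = W.card + (nb G W).card := by exact_mod_cast c1
  have e2 : (W.card:ℝ) + n2 = n := by exact_mod_cast c2
  have b1 : (0:ℝ) ≤ n1 := Nat.cast_nonneg _
  have b2 : (0:ℝ) ≤ n2 := Nat.cast_nonneg _
  have b3 : (0:ℝ) ≤ (nb G W).card := Nat.cast_nonneg _
  have hk' : ((nb G W \ Z).card : ℝ) ≤ k := by exact_mod_cast hk
  have hP' : (tau n1 - tau n) * n1 + (tau n2 - tau n) * n2 ≤ 3 * k := by
    have : tau n * n ≤ tau n * (n1 + n2) := by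
      apply mul_le_mul_of_nonneg_left _ t0.le
      linarith
    nlinarith
  have p1 : 0 ≤ (tau n1 - tau n) * n1 := mul_nonneg (by linarith) b1
  have p2 : 0 ≤ (tau n2 - tau n) * n2 := mul_nonneg (by linarith) b2
  exact ⟨by linarith, by linarith, hn1, hn2⟩

/-- (T4b) bounded separators cut off bounded pieces. -/
theorem pm_pocket (k : ℕ) : ∃ C n0 : ℕ, ∀ {V : Type} [Fintype V] (G : SimpleGraph V), PM G →
    n0 ≤ Fintype.card V → ∀ W : Finset V, (nb G W).card ≤ k →
      W.card ≤ C ∨ (Finset.univ \ (W ∪ nb G W)).card ≤ C := by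
  obtain ⟨C, n0, hC⟩ := numeric k
  refine ⟨C, max n0 (5 * k + 5), ?_⟩
  intro V _ G hG hn W hWk
  have hn' : n0 ≤ Fintype.card V := le_trans (le_max_left _ _) hn
  have hn'' : 5 * k + 5 ≤ Fintype.card V := le_trans (le_max_right _ _) hn
  by_cases hW : W.Nonempty
  swap
  · left
    rw [not_nonempty_iff_eq_empty] at hW
    rw [hW]; simp
  by_cases hX : W ∪ nb G W = univ
  · right
    rw [hX]; simp
  obtain ⟨p1, p2, hn1, hn2⟩ := pocket_aux G hG W ∅ hW hX (by simp) k (by simpa using hWk)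
  obtain ⟨c1, c2, c3⟩ := card_facts G W
  by_cases h : 5 * (W ∪ nb G W).card ≤ 3 * Fintype.card V
  · left
    have := hC _ _ hn' hn1 h p1
    omega
  · right
    have h' : 5 * (univ \ W).card ≤ 3 * Fintype.card V := by omega
    have := hC _ _ hn' hn2 h' p2
    refine le_trans (card_le_card ?_) this
    exact sdiff_subset_sdiff (subset_refl _) subset_union_left

/-- (T4c) hubs do not count as boundary. -/
theorem pm_triple : ∃ c : ℕ, ∀ D : ℕ, ∃ n0 : ℕ, ∀ {V : Type} [Fintype V] (G : SimpleGraph V),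
    PM G → n0 ≤ Fintype.card V → ∀ W Z : Finset V, (W ∪ nb G W).card ≤ D →
      (nb G W \ Z).card ≤ 15 →
      (∀ z ∈ Z, z ∈ nb G W → 3 ≤ (nbv G z ∩ W).card ∧ 3 ≤ (nbv G z \ W).card) →
      (W ∪ nb G W).card ≤ c := by
  obtain ⟨C, n0, hC⟩ := numeric 15
  refine ⟨C, fun D => ⟨max n0 (2 * D + 1), ?_⟩⟩
  intro V _ G hG hn W Z hD hk hZ
  have hn' : n0 ≤ Fintype.card V := le_trans (le_max_left _ _) hn
  have hn'' : 2 * D + 1 ≤ Fintype.card V := le_trans (le_max_right _ _) hn
  by_cases hW : W.Nonempty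
  swap
  · rw [not_nonempty_iff_eq_empty] at hW
    have : nb G W = ∅ := by
      ext x
      rw [mem_nb', hW]
      simp
    rw [this, hW]; simp
  have hX : W ∪ nb G W ≠ univ := by
    intro h
    rw [h, card_univ] at hD
    omega
  obtain ⟨p1, p2, hn1, hn2⟩ := pocket_aux G hG W Z hW hX hZ 15 hk
  exact hC _ _ hn' hn1 (by omega) (by exact_mod_cast p1)

/-- (T4d) potential-minimal graphs have few vertices of degree `≤ 2`. -/
theorem pm_deficient {V : Type*} [Fintype V] (G : SimpleGraph V) (h : PM G) :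
    ((Finset.univ.filter fun x : V => (nbv G x).card ≤ 2).card : ℝ) ≤
      tau (Fintype.card V) * Fintype.card V := by
  refine le_trans ?_ h.1
  have : (Finset.univ.filter fun x : V => (nbv G x).card ≤ 2).card ≤ dfc G univ := by
    unfold dfc
    rw [card_filter]
    apply sum_le_sum
    intro v _
    rw [inter_univ]
    split_ifs with h1
    · omega
    · omega
  exact_mod_cast this

end Pool.Agent.Helper92.Ch
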